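import Pool.Agent.Lib_helper41.HZF.Fin9

/-!
# Hardy's theorem in degree 3: definitions for Part A
-/

namespace Pool.Agent.H3

open NumberField NumberField.InfinitePlace NumberField.Units Complex MeasureTheory Filter Topology
open Pool.Agent.HZ

variable {K : Type} [Field K] [NumberField K]

/-- `S(δ) = ∑_𝔞 ψ(𝔞) exp(-3π z (N𝔞/√D)^{2/3})`, `z = exp(i(π/2 - δ))`. -/
noncomputable def Ssum (ψ : Ideal (𝓞 K) →* ℂ) (D δ : ℝ) : ℂ :=
  ∑' 𝔞 : Ideal (𝓞 K), ψ 𝔞 * cexp (-(3 * Real.pi * cexp (((Real.pi / 2 - δ : ℝ) : ℂ) * I) *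
    ((((Ideal.absNorm 𝔞 : ℝ) / √D) ^ (2 / 3 : ℝ) : ℝ) : ℂ)))

/-- `h_δ(s) = Γ(3s/2) (3πz)^{-3s/2} / γ(s)`. -/
noncomputable def hdel (κ : InfinitePlace K → ℤ) (lam : InfinitePlace K → ℝ) (δ : ℝ) (s : ℂ) : ℂ :=
  Gamma (3 * s / 2) * cexp (-(3 * s / 2 * (Real.log (3 * Real.pi) +
    ((Real.pi / 2 - δ : ℝ) : ℂ) * I))) * (gam κ lam s)⁻¹

/-- `Λ` is the completed L-function, in the normalization of `IsCompleted`, and a multiple of
`LamD`. -/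
def IsLam (κ : InfinitePlace K → ℤ) (lam : InfinitePlace K → ℝ) (ψ : Ideal (𝓞 K) →* ℂ)
    (Λ : ℂ → ℂ) : Prop :=
  IsCompleted κ lam ψ Λ ∧ ∃ c : ℂ, ∀ s, Λ s = c * LamD κ lam ψ s

/-- The archimedean hypotheses: `K` is a totally real cubic field, `κ ∈ {0, 1}`, `∑ λ = 0`. -/
structure TR3 (κ : InfinitePlace K → ℤ) (lam : InfinitePlace K → ℝ) : Prop where
  real : ∀ w : InfinitePlace K, w.IsReal
  deg : Module.finrank ℚ K = 3
  kap : ∀ w, κ w = 0 ∨ κ w = 1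
  sum : ∑ w, lam w = 0

/-- Real coordinates of an element of `K`. -/
noncomputable def em (e : Fin 3 ≃ InfinitePlace K) (a : K) (i : Fin 3) : ℝ :=
  ((e i).embedding a).re

end Pool.Agent.H3
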