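import Pool.Agent.Lib_helper19.H3.DefsA

/-!
# Block GR: rotation bound and exact values of the Gamma function
-/

namespace Pool.Agent.H3

open Complex MeasureTheory Filter Topology

theorem gr_int {x c : ℝ} (hx : 0 < x) (hc : 0 < c) :
    IntegrableOn (fun t : ℝ => t ^ (x - 1) * Real.exp (-(c * t))) (Set.Ioi 0) := by
  have h := integrableOn_rpow_mul_exp_neg_mul_rpow (p := 1) (s := x - 1) (b := c)
    (by linarith) one_pos hc
  refine h.congr_fun (fun t _ => ?_) measurableSet_Ioi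
  simp only [Real.rpow_one, neg_mul]

theorem gr_norm {a r : ℂ} {t : ℝ} (ht : 0 < t) :
    ‖(t : ℂ) ^ (a - 1) * cexp (-(r * t))‖ = t ^ (a.re - 1) * Real.exp (-(r.re * t)) := by
  rw [norm_mul, norm_cpow_eq_rpow_re_of_pos ht, Complex.norm_exp]
  simp

theorem gr_meas {a r : ℂ} : AEStronglyMeasurable (fun t : ℝ => (t : ℂ) ^ (a - 1) * cexp (-(r * t)))
    (volume.restrict (Set.Ioi 0)) := by
  refine ContinuousOn.aestronglyMeasurable ?_ measurableSet_Ioi
  intro t ht
  refine ContinuousAt.continuousWithinAt ?_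
  refine ContinuousAt.mul ?_ (by fun_prop)
  exact (continuousAt_ofReal_cpow_const _ _ (Or.inr (ne_of_gt ht)))

theorem gr_int' {a r : ℂ} (ha : 0 < a.re) (hr : 0 < r.re) :
    Integrable (fun t : ℝ => (t : ℂ) ^ (a - 1) * cexp (-(r * t)))
      (volume.restrict (Set.Ioi 0)) := by
  refine (gr_int ha hr).mono' gr_meas ?_
  filter_upwards [ae_restrict_mem measurableSet_Ioi] with t ht
  exact (gr_norm ht).le

theorem gr_diff {a : ℂ} (ha : 0 < a.re) {r : ℂ} (hr : 0 < r.re) :
    DifferentiableAt ℂ (fun r : ℂ => ∫ t : ℝ in Set.Ioi 0, (t : ℂ) ^ (a - 1) * cexp (-(r * t))) r := by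
  have hr2 : 0 < r.re / 2 := by linarith
  have key := hasDerivAt_integral_of_dominated_loc_of_deriv_le (𝕜 := ℂ)
    (μ := volume.restrict (Set.Ioi (0 : ℝ))) (x₀ := r) (s := {z : ℂ | r.re / 2 < z.re})
    (F := fun (r : ℂ) (t : ℝ) => (t : ℂ) ^ (a - 1) * cexp (-(r * t)))
    (F' := fun (r : ℂ) (t : ℝ) => (t : ℂ) ^ (a - 1) * (cexp (-(r * t)) * (-t)))
    (bound := fun t => t ^ (a.re + 1 - 1) * Real.exp (-(r.re / 2 * t)))
    ((isOpen_lt continuous_const continuous_re).mem_nhds (by simp only [Set.mem_setOf_eq]; linarith))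
    (Eventually.of_forall fun _ => gr_meas) (gr_int' ha hr) ?_ ?_ ?_ ?_
  · exact key.2.differentiableAt
  · have h1 : (fun t : ℝ => (t : ℂ) ^ (a - 1) * (cexp (-(r * t)) * (-t))) =
        fun t : ℝ => ((t : ℂ) ^ (a - 1) * cexp (-(r * t))) * (-(t : ℂ)) := by
      funext t; ring
    rw [h1]
    exact gr_meas.mul (by fun_prop)
  · filter_upwards [ae_restrict_mem measurableSet_Ioi] with t ht z hz
    have ht0 : 0 < t := ht
    have h1 : (t : ℂ) ^ (a - 1) * (cexp (-(z * t)) * (-t)) =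
        ((t : ℂ) ^ (a - 1) * cexp (-(z * t))) * (-(t : ℂ)) := by ring
    rw [h1, norm_mul, gr_norm ht0, norm_neg, norm_real, Real.norm_of_nonneg ht0.le]
    have h2 : t ^ (a.re + 1 - 1) = t ^ (a.re - 1) * t := by
      rw [add_sub_cancel_right, Real.rpow_sub_one ht0.ne']
      field_simp
    rw [h2]
    have h3 : Real.exp (-(z.re * t)) ≤ Real.exp (-(r.re / 2 * t)) := by
      apply Real.exp_le_exp.2
      have : r.re / 2 * t ≤ z.re * t := mul_le_mul_of_nonneg_right (le_of_lt hz) ht0.le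
      linarith
    have h4 : 0 ≤ t ^ (a.re - 1) := Real.rpow_nonneg ht0.le _
    calc t ^ (a.re - 1) * Real.exp (-(z.re * t)) * t
        ≤ t ^ (a.re - 1) * Real.exp (-(r.re / 2 * t)) * t := by gcongr
      _ = t ^ (a.re - 1) * t * Real.exp (-(r.re / 2 * t)) := by ring
  · exact gr_int (by linarith) hr2
  · filter_upwards with t z _
    refine HasDerivAt.const_mul _ ?_
    have h1 : HasDerivAt (fun z : ℂ => -(z * t)) (-t) z := by
      simpa using ((hasDerivAt_id' z).mul_const (t : ℂ)).fun_neg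
    exact h1.cexp

/-- the Laplace transform of a power for complex parameters -/
theorem gr_integral {a r : ℂ} (ha : 0 < a.re) (hr : 0 < r.re) :
    ∫ t : ℝ in Set.Ioi 0, (t : ℂ) ^ (a - 1) * cexp (-(r * t)) = (1 / r) ^ a * Gamma a := by
  set U : Set ℂ := {z : ℂ | 0 < z.re} with hU
  have hUo : IsOpen U := isOpen_lt continuous_const continuous_re
  have hUc : IsPreconnected U := (convex_halfSpace_re_gt 0).isPreconnected
  have hF : AnalyticOnNhd ℂ (fun r : ℂ => ∫ t : ℝ in Set.Ioi 0, (t : ℂ) ^ (a - 1) *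
      cexp (-(r * t))) U := by
    refine DifferentiableOn.analyticOnNhd (fun z hz => ?_) hUo
    exact (gr_diff ha hz).differentiableWithinAt
  have hG : AnalyticOnNhd ℂ (fun r : ℂ => (1 / r) ^ a * Gamma a) U := by
    refine DifferentiableOn.analyticOnNhd (fun z hz => ?_) hUo
    refine DifferentiableAt.differentiableWithinAt ?_
    have hz0 : z ≠ 0 := by
      rintro rfl
      exact lt_irrefl _ (show (0 : ℝ) < (0 : ℂ).re from hz)
    have h1 : (1 / z) ∈ slitPlane := by
      rw [one_div]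
      refine Or.inl ?_
      rw [inv_re]
      exact div_pos hz (normSq_pos.2 hz0)
    have h2 : DifferentiableAt ℂ (fun r : ℂ => 1 / r) z := by
      simpa using (differentiableAt_inv hz0)
    exact (DifferentiableAt.cpow_const h2 h1).mul_const _
  have hseq : Tendsto (fun n : ℕ => (1 : ℂ) + 1 / (n + 1)) atTop (𝓝[≠] (1 : ℂ)) := by
    refine tendsto_nhdsWithin_iff.2 ⟨?_, Eventually.of_forall fun n => ?_⟩
    · have h1 : Tendsto (fun n : ℕ => (1 : ℂ) / (n + 1)) atTop (𝓝 0) :=
        tendsto_one_div_add_atTop_nhds_zero_nat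
      simpa using h1.const_add (1 : ℂ)
    · have h1 : (1 : ℂ) / (n + 1) ≠ 0 := by
        have : ((n : ℂ) + 1) ≠ 0 := by exact_mod_cast Nat.succ_ne_zero n
        exact one_div_ne_zero this
      simpa using h1
  have hfreq : ∃ᶠ z in 𝓝[≠] (1 : ℂ), (∫ t : ℝ in Set.Ioi 0, (t : ℂ) ^ (a - 1) *
      cexp (-(z * t))) = (1 / z) ^ a * Gamma a := by
    refine hseq.frequently (Frequently.of_forall fun n => ?_)
    have h1 : (1 : ℂ) + 1 / (n + 1) = ((1 + 1 / (n + 1) : ℝ) : ℂ) := by push_cast; ring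
    rw [h1]
    exact integral_cpow_mul_exp_neg_mul_Ioi ha (by positivity)
  exact hF.eqOn_of_preconnected_of_frequently_eq hG hUc (by simp [hU]) hfreq hr

theorem norm_Gamma_le_rot_pr {x y θ : ℝ} (hx : 0 < x) (hθ : |θ| < Real.pi / 2) :
    ‖Gamma (x + y * I)‖ ≤ Real.exp (-(θ * y)) * Real.Gamma x * (Real.cos θ) ^ (-x) := by
  have hpi := Real.pi_pos
  have hab := abs_lt.1 hθ
  have hcos : 0 < Real.cos θ := Real.cos_pos_of_mem_Ioo ⟨by linarith [hab.1], hab.2⟩
  set a : ℂ := x + y * I with ha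
  have hare : a.re = x := by simp [ha]
  set r : ℂ := cexp (θ * I) with hr
  have hrre : r.re = Real.cos θ := by
    rw [hr, Complex.exp_re]
    simp
  have h1 := gr_integral (a := a) (r := r) (by rw [hare]; exact hx) (by rw [hrre]; exact hcos)
  have h2 : (1 / r) ^ a = cexp (-(θ * I) * a) := by
    have h3 : 1 / r = cexp (-(θ * I)) := by
      rw [hr, Complex.exp_neg, one_div]
    rw [h3, Complex.cpow_def_of_ne_zero (Complex.exp_ne_zero _), Complex.log_exp]
    · simp; linarith [hab.2]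
    · simp; linarith [hab.1]
  have h4 : ‖(1 / r) ^ a‖ = Real.exp (θ * y) := by
    rw [h2, Complex.norm_exp]
    congr 1
    simp [ha]
  have h5 : ‖∫ t : ℝ in Set.Ioi 0, (t : ℂ) ^ (a - 1) * cexp (-(r * t))‖ ≤
      (1 / Real.cos θ) ^ x * Real.Gamma x := by
    rw [← Real.integral_rpow_mul_exp_neg_mul_Ioi hx hcos]
    refine norm_integral_le_of_norm_le (gr_int hx hcos) ?_
    filter_upwards [ae_restrict_mem measurableSet_Ioi] with t ht
    rw [gr_norm ht, hare, hrre]
  rw [h1, norm_mul, h4] at h5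
  have h6 : ‖Gamma a‖ = Real.exp (-(θ * y)) * (Real.exp (θ * y) * ‖Gamma a‖) := by
    rw [← mul_assoc, ← Real.exp_add]
    simp
  rw [h6, mul_assoc]
  refine mul_le_mul_of_nonneg_left (h5.trans (le_of_eq ?_)) (Real.exp_pos _).le
  rw [Real.rpow_neg hcos.le, one_div, Real.inv_rpow hcos.le]
  ring

theorem norm_Gamma_half_pr (y : ℝ) :
    ‖Gamma (1 / 2 + y * I)‖ ^ 2 = Real.pi / Real.cosh (Real.pi * y) := by
  have h1 := Complex.Gamma_mul_Gamma_one_sub (1 / 2 + y * I)
  have h2 : (1 : ℂ) - (1 / 2 + y * I) = (starRingEnd ℂ) (1 / 2 + y * I) := by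
    simp only [map_add, map_mul, conj_I, conj_ofReal, map_div₀, map_one, map_ofNat]
    ring
  rw [h2, Complex.Gamma_conj, Complex.mul_conj'] at h1
  have h3 : Complex.sin (Real.pi * (1 / 2 + y * I)) = ((Real.cosh (Real.pi * y) : ℝ) : ℂ) := by
    rw [show (Real.pi : ℂ) * (1 / 2 + y * I) = (Real.pi * y : ℝ) * I + Real.pi / 2 by
      push_cast; ring, Complex.sin_add_pi_div_two, Complex.cos_mul_I]
    push_cast
    rfl
  rw [h3] at h1
  exact_mod_cast h1

theorem norm_Gamma_one_pr (y : ℝ) (hy : y ≠ 0) :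
    ‖Gamma (1 + y * I)‖ ^ 2 = Real.pi * y / Real.sinh (Real.pi * y) := by
  have hyI : (y : ℂ) * I ≠ 0 := mul_ne_zero (by exact_mod_cast hy) I_ne_zero
  have h0 : Gamma (1 + y * I) = (y * I) * Gamma (y * I) := by
    rw [add_comm, Complex.Gamma_add_one _ hyI]
  have h1 := Complex.Gamma_mul_Gamma_one_sub (y * I)
  have h2 : (1 : ℂ) - y * I = (starRingEnd ℂ) (1 + y * I) := by
    simp only [map_add, map_mul, conj_I, conj_ofReal, map_one]
    ring
  have h3 : Gamma (1 + y * I) * (starRingEnd ℂ) (Gamma (1 + y * I)) =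
      (y * I) * (Real.pi / Complex.sin (Real.pi * (y * I))) := by
    rw [← Complex.Gamma_conj, ← h2]
    nth_rewrite 1 [h0]
    rw [mul_assoc, h1]
  rw [Complex.mul_conj'] at h3
  have h4 : Complex.sin (Real.pi * (y * I)) = ((Real.sinh (Real.pi * y) : ℝ) : ℂ) * I := by
    rw [show (Real.pi : ℂ) * (y * I) = (Real.pi * y : ℝ) * I by push_cast; ring,
      Complex.sin_mul_I]
    push_cast
    rfl
  have h5 : ((Real.sinh (Real.pi * y) : ℝ) : ℂ) ≠ 0 := by
    have : Real.sinh (Real.pi * y) ≠ 0 := by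
      rw [Ne, Real.sinh_eq_zero]
      exact mul_ne_zero Real.pi_ne_zero hy
    exact_mod_cast this
  rw [h4] at h3
  have h6 : (y : ℂ) * I * (Real.pi / (((Real.sinh (Real.pi * y) : ℝ) : ℂ) * I)) =
      Real.pi * y / ((Real.sinh (Real.pi * y) : ℝ) : ℂ) := by
    field_simp
  rw [h6] at h3
  exact_mod_cast h3

theorem gr_sin (z : ℂ) : ‖Complex.sin z‖ ≤ Real.exp |z.im| := by
  unfold Complex.sin
  rw [norm_div, norm_mul, norm_I, mul_one, show ‖(2 : ℂ)‖ = 2 by simp]
  have h1 : ‖cexp (-z * I)‖ ≤ Real.exp |z.im| := by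
    rw [Complex.norm_exp]
    apply Real.exp_le_exp.2
    have : (-z * I).re = z.im := by simp
    rw [this]
    exact le_abs_self _
  have h2 : ‖cexp (z * I)‖ ≤ Real.exp |z.im| := by
    rw [Complex.norm_exp]
    apply Real.exp_le_exp.2
    have : (z * I).re = -z.im := by simp
    rw [this]
    exact neg_le_abs _
  have h3 : ‖cexp (-z * I) - cexp (z * I)‖ ≤ Real.exp |z.im| + Real.exp |z.im| :=
    (norm_sub_le _ _).trans (add_le_add h1 h2)
  linarith

theorem gr_left (s : ℂ) (hs : s.re ≤ 1 / 2) :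
    (Gamma s)⁻¹ = Gamma (1 - s) * Complex.sin (Real.pi * s) / Real.pi := by
  have hpi : (Real.pi : ℂ) ≠ 0 := by exact_mod_cast Real.pi_ne_zero
  have h1 := Complex.Gamma_mul_Gamma_one_sub s
  have h2 : Gamma (1 - s) ≠ 0 := by
    refine Complex.Gamma_ne_zero_of_re_pos ?_
    simp
    linarith
  by_cases h3 : Complex.sin (Real.pi * s) = 0
  · rw [h3, div_zero] at h1
    have h4 : Gamma s = 0 := by
      rcases mul_eq_zero.1 h1 with h | h
      · exact h
      · exact absurd h h2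
    rw [h4, h3]
    simp
  · have h4 : Gamma s = Real.pi / Complex.sin (Real.pi * s) / Gamma (1 - s) := by
      rw [← h1]
      field_simp
    rw [h4]
    field_simp

theorem gr_shift (n : ℕ) (s : ℂ) (hs : 1 ≤ |s.im|) :
    ‖(Gamma s)⁻¹‖ ≤ ‖(Gamma (s - n))⁻¹‖ := by
  induction n with
  | zero => simp
  | succ n ih =>
    refine ih.trans ?_
    have h1 := Complex.one_div_Gamma_eq_self_mul_one_div_Gamma_add_one (s - (n + 1 : ℕ))
    have h2 : s - (n + 1 : ℕ) + 1 = s - n := by push_cast; ring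
    rw [h2] at h1
    rw [h1, norm_mul]
    have h3 : 1 ≤ ‖s - (n + 1 : ℕ)‖ := by
      refine hs.trans ?_
      have h4 : (s - (n + 1 : ℕ)).im = s.im := by simp
      rw [← h4]
      exact abs_im_le_norm _
    have h5 : 0 ≤ ‖(Gamma (s - n))⁻¹‖ := norm_nonneg _
    nlinarith

theorem inv_Gamma_growth_pr (a b : ℝ) : ∃ C : ℝ, 0 ≤ C ∧ ∀ s : ℂ, a ≤ s.re → s.re ≤ b →
    ‖(Gamma s)⁻¹‖ ≤ C * Real.exp (C * |s.im|) := by
  have hpi := Real.pi_pos
  obtain ⟨n, hn⟩ := exists_nat_ge (b - 1 / 2)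
  -- the compact part
  have hK : IsCompact (Set.Icc a b ×ℂ Set.Icc (-1 : ℝ) 1) := isCompact_Icc.reProdIm isCompact_Icc
  have hcont : Continuous fun s : ℂ => (Gamma s)⁻¹ :=
    Complex.differentiable_one_div_Gamma.continuous
  obtain ⟨C₁, hC₁⟩ := hK.exists_bound_of_continuousOn hcont.continuousOn
  -- the values of the real Gamma function
  have hG : ContinuousOn (fun x : ℝ => Real.Gamma (1 - x)) (Set.Icc (a - n) (b - n)) := by
    intro x hx
    refine ContinuousAt.continuousWithinAt ?_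
    have h1 : 0 < 1 - x := by linarith [hx.2]
    have h2 : ContinuousAt Real.Gamma (1 - x) := by
      refine (Real.differentiableAt_Gamma fun m => ?_).continuousAt
      have : (0 : ℝ) ≤ m := Nat.cast_nonneg m
      intro h
      linarith
    exact ContinuousAt.comp (f := fun x : ℝ => 1 - x) h2 (by fun_prop)
  obtain ⟨C₂, hC₂⟩ := isCompact_Icc.exists_bound_of_continuousOn hG
  refine ⟨max (max C₁ (C₂ / Real.pi)) Real.pi, le_max_of_le_right hpi.le, ?_⟩
  set C := max (max C₁ (C₂ / Real.pi)) Real.pi with hC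
  have hC0 : 0 ≤ C := le_max_of_le_right hpi.le
  intro s h1 h2
  have hexp : 1 ≤ Real.exp (C * |s.im|) := Real.one_le_exp (by positivity)
  by_cases him : |s.im| ≤ 1
  · have h3 : ‖(Gamma s)⁻¹‖ ≤ C₁ := hC₁ s ⟨⟨h1, h2⟩, abs_le.1 him⟩
    have h4 : C₁ ≤ C := (le_max_left _ _).trans (le_max_left _ _)
    nlinarith
  · push Not at him
    have h3 := gr_shift n s him.le
    have hre : (s - n).re = s.re - n := by simp
    have him' : (s - n).im = s.im := by simp
    have h4 : (s - n).re ≤ 1 / 2 := by rw [hre]; linarith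
    rw [gr_left _ h4, norm_div, norm_mul] at h3
    have h5 : ‖(Real.pi : ℂ)‖ = Real.pi := by
      rw [norm_real, Real.norm_of_nonneg hpi.le]
    rw [h5] at h3
    have h6 : ‖Gamma (1 - (s - n))‖ ≤ C₂ := by
      have h7 : (1 : ℂ) - (s - n) = ((1 - (s.re - n) : ℝ) : ℂ) + ((-s.im : ℝ) : ℂ) * I := by
        apply Complex.ext <;> simp
      rw [h7]
      have h8 := norm_Gamma_le_rot_pr (x := 1 - (s.re - n)) (y := -s.im) (θ := 0)
        (by linarith) (by simpa using by positivity)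
      simp only [zero_mul, neg_zero, Real.exp_zero, one_mul, Real.cos_zero, Real.one_rpow,
        mul_one] at h8
      refine h8.trans ?_
      have h9 := hC₂ (s.re - n) ⟨by linarith, by linarith⟩
      exact (le_abs_self _).trans h9
    have h7 : ‖Complex.sin (Real.pi * (s - n))‖ ≤ Real.exp (Real.pi * |s.im|) := by
      refine (gr_sin _).trans (le_of_eq ?_)
      congr 1
      have : ((Real.pi : ℂ) * (s - n)).im = Real.pi * s.im := by
        simp
      rw [this, abs_mul, abs_of_pos hpi]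
    have hC2 : 0 ≤ C₂ := (norm_nonneg _).trans h6
    calc ‖(Gamma s)⁻¹‖ ≤ ‖Gamma (1 - (s - n))‖ * ‖Complex.sin (Real.pi * (s - n))‖ / Real.pi := h3
      _ ≤ C₂ * Real.exp (Real.pi * |s.im|) / Real.pi := by gcongr
      _ = C₂ / Real.pi * Real.exp (Real.pi * |s.im|) := by ring
      _ ≤ C * Real.exp (C * |s.im|) := by
          have h8 : C₂ / Real.pi ≤ C := (le_max_right _ _).trans (le_max_left _ _)
          have h9 : Real.pi ≤ C := le_max_right _ _
          gcongr

end Pool.Agent.H3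

namespace Pool.Agent.H3

alias norm_Gamma_le_rot := norm_Gamma_le_rot_pr
alias norm_Gamma_half := norm_Gamma_half_pr
alias norm_Gamma_one := norm_Gamma_one_pr
alias inv_Gamma_growth := inv_Gamma_growth_pr

end Pool.Agent.H3
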