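import Mathlib

/-!
# Block SH: shifting a vertical contour
-/

open Complex MeasureTheory Filter Topology Set

namespace Pool.Agent.H3

/-- exponential decay is dominated by a Lorentzian. -/
theorem sh_exp_le {c : ℝ} (hc : 0 < c) (t : ℝ) :
    Real.exp (-(c * |t|)) ≤ (1 + 2 / c ^ 2) * (1 + t ^ 2)⁻¹ := by
  have h0 : 0 ≤ c * |t| := by positivity
  have h1 := Real.quadratic_le_exp_of_nonneg h0
  have h2 : 0 < Real.exp (c * |t|) := Real.exp_pos _
  have h3 : (c * |t|) ^ 2 = c ^ 2 * t ^ 2 := by rw [mul_pow, sq_abs]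
  rw [h3] at h1
  have h4 : 1 + t ^ 2 ≤ (1 + 2 / c ^ 2) * Real.exp (c * |t|) := by
    have h5 : (1 : ℝ) ≤ Real.exp (c * |t|) := Real.one_le_exp h0
    have h6 : c ^ 2 * t ^ 2 / 2 ≤ Real.exp (c * |t|) := by linarith
    have h7 : t ^ 2 ≤ 2 / c ^ 2 * Real.exp (c * |t|) := by
      have h8 : t ^ 2 = 2 / c ^ 2 * (c ^ 2 * t ^ 2 / 2) := by field_simp
      rw [h8]
      exact mul_le_mul_of_nonneg_left h6 (by positivity)
    nlinarith
  rw [Real.exp_neg, ← div_eq_mul_inv, inv_eq_one_div, div_le_div_iff₀ h2 (by positivity)]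
  linarith

theorem sh_integrable {c : ℝ} (hc : 0 < c) :
    Integrable (fun t : ℝ => Real.exp (-(c * |t|))) := by
  refine Integrable.mono' (integrable_inv_one_add_sq.const_mul (1 + 2 / c ^ 2)) ?_ ?_
  · exact (by fun_prop : Continuous (fun t : ℝ => Real.exp (-(c * |t|)))).aestronglyMeasurable
  · refine Eventually.of_forall (fun t => ?_)
    rw [Real.norm_of_nonneg (Real.exp_pos _).le]
    exact sh_exp_le hc t

theorem sh_vert {f : ℂ → ℂ} {x C c : ℝ} (hc : 0 < c)
    (hf : ∀ s : ℂ, s.re = x → DifferentiableAt ℂ f s)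
    (hb : ∀ s : ℂ, s.re = x → ‖f s‖ ≤ C * Real.exp (-(c * |s.im|))) :
    Integrable (fun t : ℝ => f (x + t * I)) := by
  refine Integrable.mono' ((sh_integrable hc).const_mul C) ?_ ?_
  · have hcont : Continuous (fun t : ℝ => f (x + t * I)) := by
      rw [continuous_iff_continuousAt]
      intro t
      have h1 : ContinuousAt f (x + t * I) := (hf (x + t * I) (by simp)).continuousAt
      have h2 : ContinuousAt (fun t : ℝ => (x : ℂ) + t * I) t := by fun_prop
      exact ContinuousAt.comp (f := fun t : ℝ => (x : ℂ) + t * I) h1 h2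
    exact hcont.aestronglyMeasurable
  · refine Eventually.of_forall (fun t => ?_)
    have h1 := hb (x + t * I) (by simp)
    simpa using h1

theorem vert_shift_pr {f : ℂ → ℂ} {a b C c : ℝ} (hab : a ≤ b) (hc : 0 < c)
    (hf : ∀ s : ℂ, a ≤ s.re → s.re ≤ b → DifferentiableAt ℂ f s)
    (hb : ∀ s : ℂ, a ≤ s.re → s.re ≤ b → ‖f s‖ ≤ C * Real.exp (-(c * |s.im|))) :
    Integrable (fun t : ℝ => f (a + t * I)) ∧ Integrable (fun t : ℝ => f (b + t * I)) ∧
      ∫ t : ℝ, f (a + t * I) = ∫ t : ℝ, f (b + t * I) := by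
  have hia : Integrable (fun t : ℝ => f (a + t * I)) :=
    sh_vert hc (fun s hs => hf s hs.ge (hs.le.trans hab)) (fun s hs => hb s hs.ge (hs.le.trans hab))
  have hib : Integrable (fun t : ℝ => f (b + t * I)) :=
    sh_vert hc (fun s hs => hf s (hab.trans hs.ge) hs.le) (fun s hs => hb s (hab.trans hs.ge) hs.le)
  refine ⟨hia, hib, ?_⟩
  -- the rectangle
  have hrect : ∀ T : ℝ, 0 ≤ T →
      ((∫ x : ℝ in a..b, f (x + ((-T : ℝ) : ℂ) * I)) - (∫ x : ℝ in a..b, f (x + (T : ℂ) * I))) +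
        I • (∫ t : ℝ in (-T)..T, f (b + t * I)) - I • (∫ t : ℝ in (-T)..T, f (a + t * I)) = 0 := by
    intro T hT
    have hd : DifferentiableOn ℂ f
        ((uIcc ((a : ℂ) + ((-T : ℝ) : ℂ) * I).re ((b : ℂ) + (T : ℂ) * I).re) ×ℂ
          (uIcc ((a : ℂ) + ((-T : ℝ) : ℂ) * I).im ((b : ℂ) + (T : ℂ) * I).im)) := by
      intro s hs
      rw [mem_reProdIm] at hs
      have h1 : s.re ∈ Icc a b := by
        have := hs.1
        simpa [uIcc_of_le hab] using this
      exact (hf s h1.1 h1.2).differentiableWithinAt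
    have := integral_boundary_rect_eq_zero_of_differentiableOn f
      ((a : ℂ) + ((-T : ℝ) : ℂ) * I) ((b : ℂ) + (T : ℂ) * I) hd
    simpa using this
  -- horizontal sides
  have hhor : ∀ (σ : ℝ), |σ| = 1 →
      Tendsto (fun T : ℝ => ∫ x : ℝ in a..b, f (x + ((σ * T : ℝ) : ℂ) * I)) atTop (𝓝 0) := by
    intro σ hσ
    have hbd : ∀ T : ℝ, 0 ≤ T → ‖∫ x : ℝ in a..b, f (x + ((σ * T : ℝ) : ℂ) * I)‖ ≤
        C * Real.exp (-(c * T)) * |b - a| := by
      intro T hT
      refine intervalIntegral.norm_integral_le_of_norm_le_const (fun x hx => ?_)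
      rw [uIoc_of_le hab] at hx
      have h1 := hb (x + ((σ * T : ℝ) : ℂ) * I) (by simpa using hx.1.le) (by simpa using hx.2)
      have h2 : ((x : ℂ) + ((σ * T : ℝ) : ℂ) * I).im = σ * T := by simp
      rw [h2, abs_mul, hσ, one_mul, abs_of_nonneg hT] at h1
      exact h1
    have hlim : Tendsto (fun T : ℝ => C * Real.exp (-(c * T)) * |b - a|) atTop (𝓝 0) := by
      have h1 : Tendsto (fun T : ℝ => Real.exp (-(c * T))) atTop (𝓝 0) := by
        refine Real.tendsto_exp_neg_atTop_nhds_zero.comp ?_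
        exact tendsto_id.const_mul_atTop hc
      have h2 := (h1.const_mul C).mul_const |b - a|
      simpa using h2
    refine squeeze_zero_norm' ?_ hlim
    filter_upwards [eventually_ge_atTop 0] with T hT using hbd T hT
  have h1 := hhor (-1) (by simp)
  have h2 := hhor 1 (by simp)
  have h3 : Tendsto (fun T : ℝ => ∫ t : ℝ in (-T)..T, f (b + t * I)) atTop
      (𝓝 (∫ t : ℝ, f (b + t * I))) :=
    intervalIntegral_tendsto_integral hib tendsto_neg_atTop_atBot tendsto_id
  have h4 : Tendsto (fun T : ℝ => ∫ t : ℝ in (-T)..T, f (a + t * I)) atTop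
      (𝓝 (∫ t : ℝ, f (a + t * I))) :=
    intervalIntegral_tendsto_integral hia tendsto_neg_atTop_atBot tendsto_id
  have h5 := ((h1.sub h2).add (h3.const_smul I)).sub (h4.const_smul I)
  have h6 : Tendsto (fun _ : ℝ => (0 : ℂ)) atTop
      (𝓝 (0 - 0 + I • (∫ t : ℝ, f (b + t * I)) - I • (∫ t : ℝ, f (a + t * I)))) := by
    refine h5.congr' ?_
    filter_upwards [eventually_ge_atTop 0] with T hT
    have := hrect T hT
    simpa using this
  have h7 := tendsto_nhds_unique h6 tendsto_const_nhds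
  simp only [smul_eq_mul, sub_zero, zero_add] at h7
  have h8 : I * (∫ t : ℝ, f (b + t * I)) = I * (∫ t : ℝ, f (a + t * I)) := by
    linear_combination h7
  exact (mul_left_cancel₀ I_ne_zero h8).symm

end Pool.Agent.H3

namespace Pool.Agent.H3

alias vert_shift := vert_shift_pr

end Pool.Agent.H3
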